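import Pool.Agent.V11215.MergeTree

/-!
# MP_4761b7: the intrinsic interleaving metric on merge trees with at most `n ≥ 2` leaves

For every `n ≥ 2` there are merge trees with `n` leaves at interleaving distance at most `1` whose
intrinsic distance inside the space of trees with at most `n` leaves is at least `2`.
-/

namespace Pool.Agent.Results.MP_4761b7_gt.IntrinsicStrict

open Pool.Agent.V11215.MTree
open Set Filter Topology
open scoped unitInterval ENNReal NNReal

/-- The star with `n` legs. -/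
def starR (n : ℕ) (hn : 0 < n) : RTree where
  V := Option (Fin n)
  root := none
  parent := fun _ => none
  parent_root := rfl
  reach := fun _ => ⟨1, rfl⟩
  nontriv := ⟨some ⟨0, hn⟩, by simp⟩

variable {n : ℕ} {hn : 0 < n}

/-- height function of a star: the centre has height `m`, the tip of leg `i` has height `m - w i` -/
noncomputable def starF (n : ℕ) (hn : 0 < n) (m : ℝ) (w : Fin n → ℝ) (p : (starR n hn).Pt) : ℝ :=
  m - ∑ i, w i * p.1.1 (some i) + p.1.2 / (1 - p.1.2)

theorem pt_some (i j : Fin n) : (starR n hn).pt (some i) (some j) = if j = i then 1 else 0 := by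
  unfold RTree.pt
  by_cases h : j = i
  · exact (if_pos (congrArg some h)).trans (if_pos h).symm
  · exact (if_neg (fun h' => h (Option.some.inj h'))).trans (if_neg h).symm

theorem pt_none (j : Fin n) : (starR n hn).pt (none : Option (Fin n)) (some j) = 0 := by
  unfold RTree.pt
  exact if_neg (fun h => by cases h)

theorem edge_coord (i j : Fin n) (t : Icc (0 : ℝ) 1) :
    ((starR n hn).edgePt (some i) t).1.1 (some j) = if j = i then 1 - (t : ℝ) else 0 := by
  change (1 - (t : ℝ)) * (starR n hn).pt (some i) (some j) +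
    (t : ℝ) * (starR n hn).pt (none : Option (Fin n)) (some j) = _
  rw [pt_some, pt_none]
  split_ifs <;> simp

theorem ray_coord (j : Fin n) (t : Ico (0 : ℝ) 1) :
    ((starR n hn).rayPt t).1.1 (some j) = 0 := pt_none j

theorem starF_edge (m : ℝ) (w : Fin n → ℝ) (i : Fin n) (t : Icc (0 : ℝ) 1) :
    starF n hn m w ((starR n hn).edgePt (some i) t) = m - w i * (1 - t) := by
  unfold starF
  simp only [edge_coord]
  have h2 : ((starR n hn).edgePt (some i) t).1.2 = 0 := rfl
  rw [h2]
  simp

theorem starF_ray (m : ℝ) (w : Fin n → ℝ) (t : Ico (0 : ℝ) 1) :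
    starF n hn m w ((starR n hn).rayPt t) = m + (t : ℝ) / (1 - t) := by
  unfold starF
  simp only [ray_coord]
  have h2 : ((starR n hn).rayPt t).1.2 = t := rfl
  rw [h2]
  simp

theorem snd_lt (p : (starR n hn).Pt) : p.1.2 < 1 := by
  obtain ⟨p, ⟨_, h⟩ | ⟨_, h⟩⟩ := p
  · change p.2 < 1; rw [h]; norm_num
  · exact h.2

theorem star_cases (p : (starR n hn).Pt) :
    (∃ (i : Fin n) (t : Icc (0 : ℝ) 1), p = (starR n hn).edgePt (some i) t) ∨
    (∃ t : Ico (0 : ℝ) 1, p = (starR n hn).rayPt t) := by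
  obtain ⟨p, ⟨⟨v, t, ht, h1⟩, h2⟩ | ⟨h1, h2⟩⟩ := p
  · cases v with
    | none =>
      right
      refine ⟨⟨0, by simp⟩, Subtype.ext (Prod.ext ?_ h2)⟩
      rw [h1]
      exact ep_root (starR n hn) t
    | some i => left; exact ⟨i, ⟨t, ht⟩, Subtype.ext (Prod.ext h1 h2)⟩
  · right; exact ⟨⟨p.2, h2⟩, Subtype.ext (Prod.ext h1 rfl)⟩

theorem div_mono {s t : ℝ} (ht : t < 1) (h : s < t) : s / (1 - s) < t / (1 - t) := by
  rw [div_lt_div_iff₀ (by linarith) (by linarith)]
  nlinarith

/-- Star-shaped merge trees. -/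
noncomputable def star (n : ℕ) (hn : 0 < n) (m : ℝ) (w : Fin n → ℝ) (hw : ∀ i, 0 < w i) :
    MergeTree where
  toRTree := starR n hn
  f := starF n hn m w
  f_cont := by
    unfold starF
    apply Continuous.add
    · fun_prop
    · apply Continuous.div (by fun_prop) (by fun_prop)
      intro p
      have := snd_lt p
      linarith
  edge_mono := by
    intro v hv s t hst
    have hst' : (s : ℝ) < t := hst
    cases v with
    | none => exact absurd rfl hv
    | some i =>
      change starF n hn m w _ < starF n hn m w _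
      rw [starF_edge, starF_edge]
      have := hw i
      nlinarith
  ray_mono := by
    intro s t hst
    have hst' : (s : ℝ) < t := hst
    change starF n hn m w _ < starF n hn m w _
    rw [starF_ray, starF_ray]
    have := div_mono t.2.2 hst'
    linarith
  ray_tendsto := by
    have h1 : Tendsto (fun t : ℝ => m + t / (1 - t)) (𝓝[<] 1) atTop := by
      apply tendsto_atTop_add_const_left
      have h2 : Tendsto (fun t : ℝ => 1 - t) (𝓝[<] 1) (𝓝[>] 0) := by
        apply tendsto_nhdsWithin_iff.2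
        constructor
        · have : Continuous fun t : ℝ => 1 - t := by fun_prop
          have h3 := this.tendsto 1
          rw [sub_self] at h3
          exact h3.mono_left nhdsWithin_le_nhds
        · filter_upwards [self_mem_nhdsWithin] with t ht
          have : t < 1 := ht
          simpa using this
      have h3 := tendsto_inv_nhdsGT_zero.comp h2
      have h4 : Tendsto (fun t : ℝ => t) (𝓝[<] 1) (𝓝 1) := tendsto_id.mono_left nhdsWithin_le_nhds
      have h5 := h4.pos_mul_atTop one_pos h3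
      refine h5.congr fun t => ?_
      simp [div_eq_mul_inv]
    have h2 := h1.comp (tendsto_comap (f := (Subtype.val : Ico (0 : ℝ) 1 → ℝ)) (x := 𝓝[<] 1))
    refine h2.congr fun t => ?_
    rw [starF_ray]
    rfl

variable {m : ℝ} {w : Fin n → ℝ} {hw : ∀ i, 0 < w i}

theorem f_edge (i : Fin n) (t : Icc (0 : ℝ) 1) :
    (star n hn m w hw).f ((starR n hn).edgePt (some i) t) = m - w i * (1 - t) :=
  starF_edge m w i t

theorem f_ray (t : Ico (0 : ℝ) 1) :
    (star n hn m w hw).f ((starR n hn).rayPt t) = m + (t : ℝ) / (1 - t) := starF_ray m w t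

/-- below height `m` exactly one leg coordinate is positive -/
theorem leg_of_lt (p : (star n hn m w hw).Pt) (h : (star n hn m w hw).f p < m) :
    ∃ i : Fin n, 0 < p.1.1 (some i) ∧ ∀ j, j ≠ i → p.1.1 (some j) = 0 := by
  rcases star_cases (hn := hn) p with ⟨i, t, rfl⟩ | ⟨t, rfl⟩
  · rw [f_edge] at h
    refine ⟨i, ?_, fun j hj => ?_⟩
    · rw [edge_coord, if_pos rfl]
      have := hw i
      by_contra hneg
      push Not at hneg
      nlinarith
    · rw [edge_coord, if_neg hj]
  · exfalso
    rw [f_ray] at h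
    have h1 : 0 ≤ (t : ℝ) / (1 - t) := div_nonneg t.2.1 (by linarith [t.2.2])
    linarith

/-- a point with positive coordinate on leg `i` has height at least the height of the tip -/
theorem leg_height (p : (star n hn m w hw).Pt) (i : Fin n) (h : 0 < p.1.1 (some i)) :
    m - w i ≤ (star n hn m w hw).f p := by
  rcases star_cases (hn := hn) p with ⟨j, t, rfl⟩ | ⟨t, rfl⟩
  · rw [edge_coord] at h
    split_ifs at h with hij
    · subst hij
      rw [f_edge]
      have := hw i
      have := t.2.1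
      nlinarith
    · exact absurd h (lt_irrefl _)
  · rw [ray_coord] at h
    exact absurd h (lt_irrefl _)

/-- points joined by an increasing path below the centre are on the same leg -/
theorem same_leg {x y : (star n hn m w hw).Pt} (h : Below (star n hn m w hw) x y)
    (hy : (star n hn m w hw).f y < m) (i : Fin n) :
    0 < x.1.1 (some i) ↔ 0 < y.1.1 (some i) := by
  obtain ⟨γ, hγ⟩ := h
  have hlt : ∀ s : I, (star n hn m w hw).f (γ s) < m := by
    intro s
    have := hγ (show s ≤ 1 from s.2.2)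
    refine lt_of_le_of_lt this ?_
    simpa using hy
  have hopen : ∀ j : Fin n, IsOpen {s : I | 0 < (γ s).1.1 (some j)} := by
    intro j
    apply isOpen_lt continuous_const
    have h1 : Continuous fun s : I => (γ s).1.1 :=
      continuous_fst.comp (continuous_subtype_val.comp γ.continuous)
    exact (continuous_apply (some j)).comp h1
  have hcompl : {s : I | 0 < (γ s).1.1 (some i)}ᶜ =
      ⋃ j : {j : Fin n // j ≠ i}, {s : I | 0 < (γ s).1.1 (some j.1)} := by
    ext s
    simp only [mem_compl_iff, mem_ofPred_eq, mem_iUnion]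
    obtain ⟨k, hk, hk'⟩ := leg_of_lt (γ s) (hlt s)
    constructor
    · intro h
      refine ⟨⟨k, ?_⟩, hk⟩
      rintro rfl
      exact h hk
    · rintro ⟨⟨j, hj⟩, hj'⟩ h
      by_cases hik : i = k
      · subst hik
        rw [hk' j hj] at hj'
        exact lt_irrefl _ hj'
      · rw [hk' i hik] at h
        exact lt_irrefl _ h
  have hclopen : IsClopen {s : I | 0 < (γ s).1.1 (some i)} := by
    refine ⟨?_, hopen i⟩
    rw [← isOpen_compl_iff, hcompl]
    exact isOpen_iUnion fun j => hopen j.1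
  rcases isClopen_iff.1 hclopen with h1 | h1
  · constructor
    · intro h
      have : (0 : I) ∈ {s : I | 0 < (γ s).1.1 (some i)} := by
        rw [mem_ofPred_eq, γ.source]; exact h
      rw [h1] at this
      exact this.elim
    · intro h
      have : (1 : I) ∈ {s : I | 0 < (γ s).1.1 (some i)} := by
        rw [mem_ofPred_eq, γ.target]; exact h
      rw [h1] at this
      exact this.elim
  · constructor
    · intro _
      have : (1 : I) ∈ {s : I | 0 < (γ s).1.1 (some i)} := by rw [h1]; trivial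
      rw [mem_ofPred_eq, γ.target] at this
      exact this
    · intro _
      have : (0 : I) ∈ {s : I | 0 < (γ s).1.1 (some i)} := by rw [h1]; trivial
      rw [mem_ofPred_eq, γ.source] at this
      exact this

/-! ### The main line -/

/-- the main line through leg `0`, parametrised by height -/
noncomputable def sigFun (n : ℕ) (hn : 0 < n) (m : ℝ) (w : Fin n → ℝ) (h : ℝ) :
    (Option (Fin n) → ℝ) × ℝ :=
  ((max 0 (min 1 ((m - h) / w ⟨0, hn⟩))) • (starR n hn).pt (some ⟨0, hn⟩) +
    (1 - max 0 (min 1 ((m - h) / w ⟨0, hn⟩))) • (starR n hn).pt none,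
    max 0 (h - m) / (1 + max 0 (h - m)))

theorem sigFun_low {h : ℝ} (hw0 : 0 < w ⟨0, hn⟩) (h1 : m - w ⟨0, hn⟩ ≤ h) (h2 : h ≤ m) :
    ∃ t : Icc (0 : ℝ) 1, (1 - (t : ℝ)) * w ⟨0, hn⟩ = m - h ∧
      sigFun n hn m w h = ((starR n hn).edgePt (some ⟨0, hn⟩) t).1 := by
  have h3 : (m - h) / w ⟨0, hn⟩ ≤ 1 := by rw [div_le_one hw0]; linarith
  have h4 : 0 ≤ (m - h) / w ⟨0, hn⟩ := div_nonneg (by linarith) hw0.le
  refine ⟨⟨1 - (m - h) / w ⟨0, hn⟩, by linarith, by linarith⟩, ?_, ?_⟩
  · change (1 - (1 - (m - h) / w ⟨0, hn⟩)) * w ⟨0, hn⟩ = m - h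
    field_simp
    ring
  · unfold sigFun
    rw [min_eq_right h3, max_eq_right h4, max_eq_left (by linarith : h - m ≤ 0)]
    apply Prod.ext
    · change _ = (starR n hn).ep (some ⟨0, hn⟩) (1 - (m - h) / w ⟨0, hn⟩)
      unfold RTree.ep
      rw [sub_sub_cancel]
      rfl
    · change (0 : ℝ) / (1 + 0) = 0
      simp

theorem sigFun_high {h : ℝ} (hw0 : 0 < w ⟨0, hn⟩) (h2 : m ≤ h) :
    ∃ t : Ico (0 : ℝ) 1, (t : ℝ) / (1 - t) = h - m ∧
      sigFun n hn m w h = ((starR n hn).rayPt t).1 := by
  have h5 : 0 < 1 + (h - m) := by linarith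
  refine ⟨⟨(h - m) / (1 + (h - m)), ?_, ?_⟩, ?_, ?_⟩
  · exact div_nonneg (by linarith) h5.le
  · rw [div_lt_one h5]; linarith
  · change ((h - m) / (1 + (h - m))) / (1 - (h - m) / (1 + (h - m))) = h - m
    field_simp
    ring
  · unfold sigFun
    have h3 : (m - h) / w ⟨0, hn⟩ ≤ 0 := div_nonpos_of_nonpos_of_nonneg (by linarith) hw0.le
    rw [min_eq_right (h3.trans zero_le_one), max_eq_left h3, max_eq_right (by linarith : 0 ≤ h - m)]
    apply Prod.ext
    · change (0 : ℝ) • _ + (1 - (0 : ℝ)) • (starR n hn).pt (none : Option (Fin n)) =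
        (starR n hn).pt (none : Option (Fin n))
      simp
    · rfl

/-- the main line -/
noncomputable def sig (n : ℕ) (hn : 0 < n) (m : ℝ) (w : Fin n → ℝ) (hw : ∀ i, 0 < w i)
    (h : Ici (m - w ⟨0, hn⟩)) : (star n hn m w hw).Pt :=
  ⟨sigFun n hn m w h, by
    rcases le_total (h : ℝ) m with h2 | h2
    · obtain ⟨t, _, ht⟩ := sigFun_low (hn := hn) (hw ⟨0, hn⟩) h.2 h2
      rw [ht]; exact ((starR n hn).edgePt (some ⟨0, hn⟩) t).2
    · obtain ⟨t, _, ht⟩ := sigFun_high (w := w) (hn := hn) (hw ⟨0, hn⟩) h2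
      rw [ht]; exact ((starR n hn).rayPt t).2⟩

theorem sig_cont : Continuous (sig n hn m w hw) := by
  apply Continuous.subtype_mk
  have h1 : Continuous (sigFun n hn m w) := by
    unfold sigFun
    apply Continuous.prodMk
    · fun_prop
    · apply Continuous.div (by fun_prop) (by fun_prop)
      intro h
      have : 0 ≤ max 0 (h - m) := le_max_left _ _
      linarith
  exact h1.comp continuous_subtype_val

theorem f_sig (h : Ici (m - w ⟨0, hn⟩)) :
    (star n hn m w hw).f (sig n hn m w hw h) = h := by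
  rcases le_total (h : ℝ) m with h2 | h2
  · obtain ⟨t, ht', ht⟩ := sigFun_low (hn := hn) (hw ⟨0, hn⟩) h.2 h2
    have : sig n hn m w hw h = (starR n hn).edgePt (some ⟨0, hn⟩) t := Subtype.ext ht
    rw [this, f_edge]
    linarith
  · obtain ⟨t, ht', ht⟩ := sigFun_high (w := w) (hn := hn) (hw ⟨0, hn⟩) h2
    have : sig n hn m w hw h = (starR n hn).rayPt t := Subtype.ext ht
    rw [this, f_ray]
    linarith

theorem sig_below {s t : Ici (m - w ⟨0, hn⟩)} (hst : s ≤ t) :
    Below (star n hn m w hw) (sig n hn m w hw s) (sig n hn m w hw t) := by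
  apply below_of_mono sig_cont _ hst
  intro a b hab
  dsimp only
  rw [f_sig, f_sig]
  exact hab

/-- injectivity of the height on leg `0` -/
theorem sig_edge (t : Icc (0 : ℝ) 1) :
    ∃ h : Ici (m - w ⟨0, hn⟩), (starR n hn).edgePt (some ⟨0, hn⟩) t = sig n hn m w hw h ∧
      (h : ℝ) = m - w ⟨0, hn⟩ * (1 - t) := by
  have hw0 := hw ⟨0, hn⟩
  have ht0 := t.2.1
  have ht1 := t.2.2
  refine ⟨⟨m - w ⟨0, hn⟩ * (1 - t), by rw [mem_Ici]; nlinarith⟩, ?_, rfl⟩
  obtain ⟨t', ht', ht''⟩ := sigFun_low (hn := hn) (w := w) (m := m)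
    (h := m - w ⟨0, hn⟩ * (1 - t)) hw0 (by nlinarith) (by nlinarith)
  have : t' = t := by
    apply Subtype.ext
    have h1 : (1 - (t' : ℝ)) * w ⟨0, hn⟩ = (1 - (t : ℝ)) * w ⟨0, hn⟩ := by rw [ht']; ring
    have h2 := mul_right_cancel₀ hw0.ne' h1
    linarith
  subst this
  exact Subtype.ext ht''.symm

theorem sig_ray (t : Ico (0 : ℝ) 1) :
    ∃ h : Ici (m - w ⟨0, hn⟩), (starR n hn).rayPt t = sig n hn m w hw h ∧
      (h : ℝ) = m + (t : ℝ) / (1 - t) := by
  have hw0 := hw ⟨0, hn⟩
  have ht0 := t.2.1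
  have ht1 := t.2.2
  have h0 : 0 ≤ (t : ℝ) / (1 - t) := div_nonneg ht0 (by linarith)
  refine ⟨⟨m + (t : ℝ) / (1 - t), by rw [mem_Ici]; linarith⟩, ?_, rfl⟩
  obtain ⟨t', ht', ht''⟩ := sigFun_high (hn := hn) (w := w) (m := m)
    (h := m + (t : ℝ) / (1 - t)) hw0 (by linarith)
  have : t' = t := by
    apply Subtype.ext
    have h1 : (t' : ℝ) / (1 - t') = (t : ℝ) / (1 - t) := by rw [ht']; ring
    have ht1' := t'.2.2
    rw [div_eq_div_iff (by linarith) (by linarith)] at h1
    linarith
  subst this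
  exact Subtype.ext ht''.symm

/-- every point lies below the point of the main line two units higher -/
theorem below_sig (hw2 : ∀ i, i ≠ ⟨0, hn⟩ → w i ≤ 2) (p : (star n hn m w hw).Pt)
    (h : Ici (m - w ⟨0, hn⟩)) (hh : (h : ℝ) = (star n hn m w hw).f p + 2) :
    Below (star n hn m w hw) p (sig n hn m w hw h) := by
  rcases star_cases (hn := hn) p with ⟨i, t, rfl⟩ | ⟨t, rfl⟩
  · by_cases hi : i = ⟨0, hn⟩
    · subst hi
      obtain ⟨h', he, hh'⟩ := sig_edge (hn := hn) (m := m) (w := w) (hw := hw) t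
      rw [f_edge] at hh
      rw [he]
      apply sig_below
      rw [← Subtype.coe_le_coe, hh, hh']
      linarith
    · rw [f_edge] at hh
      have h1 : Below (star n hn m w hw) ((starR n hn).edgePt (some i) t)
          ((starR n hn).edgePt (some i) ⟨1, by simp⟩) :=
        edge_below (star n hn m w hw) (some i) (by rw [Subtype.mk_le_mk]; exact t.2.2)
      have h2 : (starR n hn).edgePt (some i) ⟨1, by simp⟩ = (starR n hn).rayPt ⟨0, by simp⟩ :=
        (edge_one (star n hn m w hw) (some i)).trans (ray_zero (star n hn m w hw)).symm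
      rw [h2] at h1
      obtain ⟨h', he, hh'⟩ := sig_ray (hn := hn) (m := m) (w := w) (hw := hw) ⟨0, by simp⟩
      rw [he] at h1
      refine h1.trans (sig_below ?_)
      rw [← Subtype.coe_le_coe, hh, hh']
      have h3 := hw2 i hi
      have h4 := hw i
      have h5 := t.2.1
      have h6 := t.2.2
      simp only [zero_div, add_zero]
      nlinarith
  · obtain ⟨h', he, hh'⟩ := sig_ray (hn := hn) (m := m) (w := w) (hw := hw) t
    rw [f_ray] at hh
    rw [he]
    apply sig_below
    rw [← Subtype.coe_le_coe, hh, hh']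
    linarith

theorem f_ge {a : ℝ} (ha : ∀ i, a ≤ m - w i) (p : (star n hn m w hw).Pt) :
    a ≤ (star n hn m w hw).f p := by
  rcases star_cases (hn := hn) p with ⟨i, t, rfl⟩ | ⟨t, rfl⟩
  · rw [f_edge]
    have h1 := ha i
    have h2 := hw i
    have h3 := t.2.1
    nlinarith
  · rw [f_ray]
    have h0 : 0 ≤ (t : ℝ) / (1 - t) := div_nonneg t.2.1 (by linarith [t.2.2])
    have h1 := ha ⟨0, hn⟩
    have h2 := hw ⟨0, hn⟩
    linarith

/-- two stars with the same lowest height and all other legs of height at most `2` are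
`1`-interleaved -/
theorem interleaved {m' : ℝ} {w' : Fin n → ℝ} {hw' : ∀ i, 0 < w' i}
    (hw2 : ∀ i, i ≠ ⟨0, hn⟩ → w i ≤ 2) (hw2' : ∀ i, i ≠ ⟨0, hn⟩ → w' i ≤ 2)
    (h0 : m - w ⟨0, hn⟩ = m' - w' ⟨0, hn⟩) (hb : ∀ i, m - w ⟨0, hn⟩ ≤ m - w i)
    (hb' : ∀ i, m' - w' ⟨0, hn⟩ ≤ m' - w' i) :
    Interleaved 1 (star n hn m w hw) (star n hn m' w' hw') := by
  have hge := f_ge (hn := hn) (m := m) (w := w) (hw := hw) hb
  have hge' := f_ge (hn := hn) (m := m') (w := w') (hw := hw') hb'
  have m1 : ∀ x : (star n hn m w hw).Pt, (star n hn m w hw).f x + 1 ∈ Ici (m' - w' ⟨0, hn⟩) := by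
    intro x
    rw [mem_Ici, ← h0]
    linarith [hge x]
  have m2 : ∀ x : (star n hn m' w' hw').Pt,
      (star n hn m' w' hw').f x + 1 ∈ Ici (m - w ⟨0, hn⟩) := by
    intro x
    rw [mem_Ici, h0]
    linarith [hge' x]
  refine ⟨⟨fun x => sig n hn m' w' hw' ⟨(star n hn m w hw).f x + 1, m1 x⟩, ?_⟩,
    ⟨fun x => sig n hn m w hw ⟨(star n hn m' w' hw').f x + 1, m2 x⟩, ?_⟩, ?_, ?_, ?_, ?_⟩
  · apply sig_cont.comp
    apply Continuous.subtype_mk
    exact (star n hn m w hw).f_cont.add continuous_const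
  · apply sig_cont.comp
    apply Continuous.subtype_mk
    exact (star n hn m' w' hw').f_cont.add continuous_const
  · intro x
    rw [ContinuousMap.coe_mk, f_sig]
    simp
  · intro x
    rw [ContinuousMap.coe_mk, f_sig]
    simp
  · intro x
    rw [ContinuousMap.coe_mk, ContinuousMap.coe_mk]
    apply below_sig hw2
    dsimp only
    rw [f_sig]
    ring
  · intro x
    rw [ContinuousMap.coe_mk, ContinuousMap.coe_mk]
    apply below_sig hw2'
    dsimp only
    rw [f_sig]
    ring

/-- the tip of leg `i` -/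
theorem tip_coord (i : Fin n) :
    0 < (vert (star n hn m w hw) (some i)).1.1 (some i) := by
  have := edge_coord (hn := hn) i i ⟨0, by simp⟩
  rw [if_pos rfl] at this
  have h2 : (vert (star n hn m w hw) (some i)).1.1 (some i) = 1 - 0 := this
  rw [h2]; norm_num

theorem tip_height (i : Fin n) :
    (star n hn m w hw).f (vert (star n hn m w hw) (some i)) = m - w i := by
  have := f_edge (hn := hn) (m := m) (w := w) (hw := hw) i ⟨0, by simp⟩
  have h2 : (star n hn m w hw).f (vert (star n hn m w hw) (some i)) = m - w i * (1 - 0) := this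
  rw [h2]; ring

/-- In a tree `S` interleaved with a star there are leaves lying in the legs. -/
theorem leaf_in_leg {ε : ℝ≥0} {S : MergeTree} (α : C((star n hn m w hw).Pt, S.Pt))
    (β : C(S.Pt, (star n hn m w hw).Pt)) (h1 : ∀ x, S.f (α x) = (star n hn m w hw).f x + ε)
    (h2 : ∀ y, (star n hn m w hw).f (β y) = S.f y + ε)
    (h3 : ∀ x, Below (star n hn m w hw) x (β (α x))) (i : Fin n) (hi : 2 * (ε : ℝ) < w i) :
    ∃ s ∈ S.leaves, S.f (vert S s) ≤ m - w i + ε ∧ (star n hn m w hw).f (β (vert S s)) < m ∧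
      0 < (β (vert S s)).1.1 (some i) := by
  obtain ⟨s, hs, hs'⟩ := exists_leaf_below S (α (vert (star n hn m w hw) (some i)))
  have h4 := h3 (vert (star n hn m w hw) (some i))
  have h5 : (star n hn m w hw).f (β (α (vert (star n hn m w hw) (some i)))) < m := by
    rw [h2, h1, tip_height]; linarith
  have h6 := (same_leg h4 h5 i).1 (tip_coord i)
  have h7 : Below (star n hn m w hw) (β (vert S s))
      (β (α (vert (star n hn m w hw) (some i)))) := hs'.map h2
  refine ⟨s, hs, ?_, ?_, ?_⟩
  · have := hs'.le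
    rw [h1, tip_height] at this
    exact this
  · exact lt_of_le_of_lt h7.le h5
  · exact (same_leg h7 h5 i).2 h6

theorem star_mem : star n hn m w hw ∈ MT n := by
  change (RTree.leaves (starR n hn)).ncard ≤ n
  have h1 : RTree.leaves (starR n hn) ⊆ (some : Fin n → Option (Fin n)) '' univ := by
    intro v hv
    have h2 : v ≠ (none : Option (Fin n)) := hv.1
    cases v with
    | none => exact absurd rfl h2
    | some i => exact ⟨i, mem_univ _, rfl⟩
  calc (RTree.leaves (starR n hn)).ncard ≤ ((some : Fin n → Option (Fin n)) '' univ).ncard :=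
        Set.ncard_le_ncard h1 (Set.toFinite _)
    _ ≤ (univ : Set (Fin n)).ncard := Set.ncard_image_le (Set.toFinite _)
    _ = n := by rw [Set.ncard_univ, Nat.card_fin]

theorem dI_self (T : MergeTree) : dI T T = 0 := by
  apply le_antisymm _ zero_le
  have : Interleaved 0 T T := by
    refine ⟨ContinuousMap.id _, ContinuousMap.id _, ?_, ?_, ?_, ?_⟩
    · intro x; simp
    · intro x; simp
    · intro x; exact Below.refl _ _
    · intro x; exact Below.refl _ _
  calc dI T T ≤ ((0 : ℝ≥0) : ℝ≥0∞) := iInf₂_le 0 this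
    _ = 0 := by simp

/-- leg heights -/
noncomputable def ww (n : ℕ) (hn : 0 < n) (a : ℝ) : Fin n → ℝ :=
  fun i => if i = ⟨0, hn⟩ then a else 2

theorem ww_pos {a : ℝ} (ha : 0 < a) (i : Fin n) : 0 < ww n hn a i := by
  unfold ww; split_ifs
  exacts [ha, two_pos]

/-- the first tree: legs with tips at heights `-10, 0, …, 0`, centre at height `2` -/
noncomputable def T1 (n : ℕ) (hn : 0 < n) : MergeTree :=
  star n hn 2 (ww n hn 12) (ww_pos (by norm_num))

/-- the second tree: legs with tips at heights `-10, 10, …, 10`, centre at height `12` -/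
noncomputable def T2 (n : ℕ) (hn : 0 < n) : MergeTree :=
  star n hn 12 (ww n hn 22) (ww_pos (by norm_num))

theorem dI_T1_T2 : dI (T1 n hn) (T2 n hn) ≤ 1 := by
  have h : Interleaved 1 (T1 n hn) (T2 n hn) := by
    apply interleaved
    · intro i hi; unfold ww; rw [if_neg hi]
    · intro i hi; unfold ww; rw [if_neg hi]
    · unfold ww; rw [if_pos rfl, if_pos rfl]; norm_num
    · intro i; unfold ww; rw [if_pos rfl]; split_ifs <;> norm_num
    · intro i; unfold ww; rw [if_pos rfl]; split_ifs <;> norm_num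
  calc dI (T1 n hn) (T2 n hn) ≤ ((1 : ℝ≥0) : ℝ≥0∞) := iInf₂_le 1 h
    _ = 1 := by simp

theorem far (hn2 : 2 ≤ n) (S : MergeTree) (hS : S ∈ MT n) :
    1 ≤ dI (T1 n hn) S ∨ 1 ≤ dI S (T2 n hn) := by
  by_contra hcon
  push Not at hcon
  obtain ⟨hc1, hc2⟩ := hcon
  obtain ⟨ε, hε, α, β, h1, h2, h3, h4⟩ := exists_of_dI_lt hc1
  obtain ⟨δ, hδ, α', β', h1', h2', h3', h4'⟩ := exists_of_dI_lt hc2
  have hε1 : (ε : ℝ) < 1 := by exact_mod_cast hε
  have hδ1 : (δ : ℝ) < 1 := by exact_mod_cast hδ
  have hw12 : ∀ i, 2 ≤ ww n hn 12 i := by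
    intro i; unfold ww; split_ifs <;> norm_num
  have hleaf : ∀ i : Fin n, ∃ s ∈ S.leaves, S.f (vert S s) ≤ 2 - ww n hn 12 i + ε ∧
      (T1 n hn).f (β (vert S s)) < 2 ∧ 0 < (β (vert S s)).1.1 (some i) := by
    intro i
    apply leaf_in_leg α β h1 h2 h3 i
    have := hw12 i
    linarith
  choose s hs hsf hsm hsi using hleaf
  have hleaf' : ∃ s ∈ S.leaves, S.f (vert S s) ≤ 12 - ww n hn 22 ⟨1, by omega⟩ + δ ∧
      (T2 n hn).f (α' (vert S s)) < 12 ∧ 0 < (α' (vert S s)).1.1 (some ⟨1, by omega⟩) := by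
    apply leaf_in_leg β' α' h2' h1' h4' ⟨1, by omega⟩
    unfold ww
    rw [if_neg (by simp)]
    linarith
  obtain ⟨s', hs', _, hsm', hsi'⟩ := hleaf'
  have hs'f : 9 < S.f (vert S s') := by
    have h5 := leg_height (hn := hn) _ _ hsi'
    have h6 := h1' (vert S s')
    change _ ≤ (T2 n hn).f (α' (vert S s')) at h5
    rw [h6] at h5
    unfold ww at h5
    rw [if_neg (by simp)] at h5
    linarith
  have hsf1 : ∀ i, S.f (vert S (s i)) < 1 := by
    intro i
    have := hsf i
    have := hw12 i
    linarith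
  have hinj : Function.Injective s := by
    intro i j hij
    obtain ⟨k, _, hk⟩ := leg_of_lt (hn := hn) (β (vert S (s i))) (hsm i)
    have hi : i = k := by
      by_contra h
      have h5 := hsi i
      rw [hk i h] at h5
      exact lt_irrefl _ h5
    have hj : j = k := by
      by_contra h
      have h5 := hsi j
      rw [← hij, hk j h] at h5
      exact lt_irrefl _ h5
    rw [hi, hj]
  have hinj2 : Function.Injective (fun o : Option (Fin n) => o.elim s' s) := by
    intro a b hab
    cases a with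
    | none =>
      cases b with
      | none => rfl
      | some j =>
        simp only [Option.elim_none, Option.elim_some] at hab
        have := hsf1 j
        rw [← hab] at this
        linarith
    | some i =>
      cases b with
      | none =>
        simp only [Option.elim_none, Option.elim_some] at hab
        have := hsf1 i
        rw [hab] at this
        linarith
      | some j =>
        simp only [Option.elim_some] at hab
        rw [hinj hab]
  have hsub : (fun o : Option (Fin n) => o.elim s' s) '' univ ⊆ S.leaves := by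
    rintro _ ⟨o, _, rfl⟩
    cases o with
    | none => exact hs'
    | some i => exact hs i
  have hcard : n + 1 ≤ S.leaves.ncard := by
    calc n + 1 = (univ : Set (Option (Fin n))).ncard := by
          rw [Set.ncard_univ, Nat.card_eq_fintype_card, Fintype.card_option, Fintype.card_fin]
      _ = ((fun o : Option (Fin n) => o.elim s' s) '' univ).ncard :=
          (Set.ncard_image_of_injective _ hinj2).symm
      _ ≤ _ := Set.ncard_le_ncard hsub (Set.toFinite _)
  have : S.leaves.ncard ≤ n := hS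
  omega

/-- For every `n ≥ 2` there are two merge trees with at most `n` leaves at interleaving distance at
most `1` whose intrinsic distance in `MT n` is at least `2`. Hence the equality of `Q1` fails for
`n = 2` and the strict inequality of `Q2` holds for every `n > 2`. -/
theorem result :
    (¬ ∀ n : ℕ, (n = 1 ∨ n = 2) → ∀ T ∈ MT n, ∀ T' ∈ MT n, intr n T T' = dI T T') ∧
    (∀ n : ℕ, 2 < n → ∃ T ∈ MT n, ∃ T' ∈ MT n, dI T T' < intr n T T') ∧
    (∀ n : ℕ, 2 ≤ n → ∃ T ∈ MT n, ∃ T' ∈ MT n, dI T T' ≤ 1 ∧ 2 ≤ intr n T T') := by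
  have hmain : ∀ n : ℕ, 2 ≤ n → ∃ T ∈ MT n, ∃ T' ∈ MT n, dI T T' ≤ 1 ∧ 2 ≤ intr n T T' := by
    intro n hn2
    have hn : 0 < n := by omega
    refine ⟨T1 n hn, star_mem, T2 n hn, star_mem, dI_T1_T2, ?_⟩
    have h1 : (1 : ℝ≥0∞) ≤ dI (T1 n hn) (T2 n hn) := by
      rcases far (hn := hn) hn2 (T1 n hn) star_mem with h | h
      · rw [dI_self] at h
        exact absurd h (by simp)
      · exact h
    have h2 := intr_ge h1 (fun S hS => far (hn := hn) hn2 S hS)
    calc (2 : ℝ≥0∞) = 1 + 1 := by norm_num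
      _ ≤ _ := h2
  have hlt : (1 : ℝ≥0∞) < 2 := by norm_num
  refine ⟨?_, ?_, hmain⟩
  · intro h
    obtain ⟨T, hT, T', hT', h1, h2⟩ := hmain 2 le_rfl
    have := h 2 (Or.inr rfl) T hT T' hT'
    rw [this] at h2
    exact absurd (h2.trans h1) (not_le.2 hlt)
  · intro n hn
    obtain ⟨T, hT, T', hT', h1, h2⟩ := hmain n hn.le
    exact ⟨T, hT, T', hT', lt_of_le_of_lt h1 (lt_of_lt_of_le hlt h2)⟩

end Pool.Agent.Results.MP_4761b7_gt.IntrinsicStrict
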